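import Pool.Agent.Helper40.CB.Models

set_option autoImplicit false

/-!
# Faces of the hypersimplex `Δ(k,n)` as sign patterns
-/

namespace Pool.Agent.Helper76.CB

open Finset Matrix Module Pool.Agent.Helper40.CB

/-- indicator vector -/
def vert {n : ℕ} (A : Finset (Fin n)) : Fin n → ℚ := fun i => if i ∈ A then 1 else 0

theorem vert_inj {n : ℕ} {A B : Finset (Fin n)} (h : vert A = vert B) : A = B := by
  ext i
  have := congrFun h i
  simp only [vert] at this
  by_cases h1 : i ∈ A <;> by_cases h2 : i ∈ B <;> simp_all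

theorem dot_vert {n : ℕ} (u : Fin n → ℚ) (A : Finset (Fin n)) :
    u ⬝ᵥ vert A = ∑ i ∈ A, u i := by
  simp [dotProduct, vert]

/-- the generators -/
def gens (k n : ℕ) : Finset (Fin n → ℚ) := (powersetCard k (univ : Finset (Fin n))).image vert

theorem mem_gens {k n : ℕ} {x : Fin n → ℚ} :
    x ∈ gens k n ↔ ∃ A : Finset (Fin n), A.card = k ∧ vert A = x := by
  simp [gens, mem_powersetCard]

theorem hyp_eq (k n : ℕ) :
    hypersimplex k n = convexHull ℚ (gens k n : Set (Fin n → ℚ)) := by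
  unfold hypersimplex
  congr 1
  ext x
  simp only [Set.mem_ofPred_eq, mem_coe, mem_gens]
  constructor
  · rintro ⟨h1, h2⟩
    refine ⟨univ.filter (fun i => x i = 1), ?_, ?_⟩
    · have : (∑ i, x i) = ((univ.filter (fun i => x i = 1)).card : ℚ) := by
        rw [card_filter]
        push_cast
        apply sum_congr rfl
        intro i _
        rcases h1 i with h | h <;> simp [h]
      rw [this] at h2
      exact_mod_cast h2
    · funext i
      simp only [vert, mem_filter, mem_univ, true_and]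
      rcases h1 i with h | h <;> simp [h]
  · rintro ⟨A, hA, rfl⟩
    refine ⟨fun i => ?_, ?_⟩
    · by_cases h : i ∈ A <;> simp [vert, h]
    · simp [vert, hA]

theorem isPolytope_hyp (k n : ℕ) : IsPolytope (hypersimplex k n) := ⟨gens k n, hyp_eq k n⟩

theorem vert_mem {k n : ℕ} {A : Finset (Fin n)} (hA : A.card = k) :
    vert A ∈ hypersimplex k n := by
  rw [hyp_eq]
  exact subset_convexHull ℚ _ (mem_coe.2 (mem_gens.2 ⟨A, hA, rfl⟩))

theorem vert_mem_Fc {k n : ℕ} {u : Fin n → ℚ} {A : Finset (Fin n)} (hA : A.card = k) :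
    vert A ∈ Fc (hypersimplex k n) u ↔
      ∀ B : Finset (Fin n), B.card = k → ∑ i ∈ B, u i ≤ ∑ i ∈ A, u i := by
  constructor
  · rintro ⟨_, h⟩ B hB
    have := h (vert B) (vert_mem hB)
    rwa [dot_vert, dot_vert] at this
  · intro h
    refine ⟨vert_mem hA, fun y hy => ?_⟩
    rw [hyp_eq] at hy
    rw [dot_vert]
    apply le_of_hull _ hy
    intro s hs
    obtain ⟨B, hB, rfl⟩ := mem_gens.1 hs
    rw [dot_vert]
    exact h B hB

theorem isFace_vert {k n : ℕ} {A : Finset (Fin n)} (hA : A.card = k) :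
    IsFace (hypersimplex k n) {vert A} := by
  rw [hyp_eq]
  rw [← Fc_singleton (S := gens k n) (u := vert A) (p := vert A) (mem_gens.2 ⟨A, hA, rfl⟩)]
  · exact isFace_Fc _ _
  · intro s hs hne
    obtain ⟨B, hB, rfl⟩ := mem_gens.1 hs
    have hAB : A ≠ B := fun h => hne (by rw [h])
    rw [dot_vert, dot_vert]
    simp only [vert]
    rw [sum_ite_mem, sum_ite_mem]
    simp only [sum_const, nsmul_eq_mul, mul_one, inter_self]
    have : (B ∩ A).card < A.card := by
      have h1 : B ∩ A ⊆ A := inter_subset_right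
      apply card_lt_card
      refine ⟨h1, fun h2 => hAB ?_⟩
      have h3 : A ⊆ B := fun x hx => (mem_inter.1 (h2 hx)).1
      exact eq_of_subset_of_card_le h3 (by rw [hA, hB])
    exact_mod_cast this

/-- vertices of a polytope are generators -/
theorem vertex_mem {d : ℕ} {S : Finset (Fin d → ℚ)} {x : Fin d → ℚ}
    (h : IsFace (convexHull ℚ (S : Set (Fin d → ℚ))) {x}) : x ∈ S := by
  obtain ⟨u, hu⟩ := h.exists_Fc (Set.singleton_nonempty x)
  have hx : x ∈ Fc (convexHull ℚ (S : Set (Fin d → ℚ))) u := by rw [← hu]; exact rfl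
  obtain ⟨hx1, hx2⟩ := hx
  obtain ⟨w, w0, w1, w2⟩ := mem_hull hx1
  have hmax : ∀ s ∈ S, u ⬝ᵥ s ≤ u ⬝ᵥ x := fun s hs => hx2 s (subset_convexHull ℚ _ hs)
  have h3 := weights_face hmax w0 w1 w2
  have h4 : ∃ y ∈ S, w y ≠ 0 := by
    by_contra hcon
    push Not at hcon
    rw [sum_eq_zero hcon] at w1
    exact zero_ne_one w1
  obtain ⟨y, hy, hwy⟩ := h4
  have h5 : y ∈ ({x} : Set (Fin d → ℚ)) := by
    rw [hu]
    refine ⟨subset_convexHull ℚ _ hy, fun z hz => ?_⟩
    rw [h3 y hy hwy]
    exact hx2 z hz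
  rw [Set.mem_singleton_iff] at h5
  rw [← h5]
  exact hy

theorem vertex_eq {k n : ℕ} {x : Fin n → ℚ} (h : IsFace (hypersimplex k n) {x}) :
    ∃ A : Finset (Fin n), A.card = k ∧ x = vert A := by
  rw [hyp_eq] at h
  obtain ⟨A, hA, h1⟩ := mem_gens.1 (vertex_mem h)
  exact ⟨A, hA, h1.symm⟩

/-- inclusion of faces of the hypersimplex is detected on the sets -/
theorem hyp_subset {k n : ℕ} {F G : Set (Fin n → ℚ)} (hF : IsFace (hypersimplex k n) F)
    (hG : IsFace (hypersimplex k n) G)
    (h : ∀ A : Finset (Fin n), A.card = k → vert A ∈ F → vert A ∈ G) : F ⊆ G := by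
  apply face_subset (isPolytope_hyp k n) hF hG
  intro p hp hv
  obtain ⟨A, hA, rfl⟩ := vertex_eq hv
  exact h A hA hp

theorem hyp_nonempty {k n : ℕ} {F : Set (Fin n → ℚ)} (hF : IsFace (hypersimplex k n) F)
    (hne : F.Nonempty) : ∃ A : Finset (Fin n), A.card = k ∧ vert A ∈ F := by
  obtain ⟨p, hp, hv, _⟩ := exists_vertex (isPolytope_hyp k n) hF hne 0
  obtain ⟨A, hA, rfl⟩ := vertex_eq hv
  exact ⟨A, hA, hp⟩

/-- exposing functional of a sign pattern -/
def ufun {n : ℕ} (G : Finset (Fin n × Bool)) : Fin n → ℚ :=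
  fun i => (if (i, true) ∈ G then 1 else 0) - (if (i, false) ∈ G then 1 else 0)

theorem ufun_sum_le {n : ℕ} (G : Finset (Fin n × Bool)) (B : Finset (Fin n)) :
    ∑ i ∈ B, ufun G i ≤ ∑ i, (if (i, true) ∈ G then (1 : ℚ) else 0) := by
  calc ∑ i ∈ B, ufun G i ≤ ∑ i ∈ B, (if (i, true) ∈ G then (1 : ℚ) else 0) := by
        apply sum_le_sum
        intro i _
        unfold ufun
        split_ifs <;> norm_num
    _ ≤ _ := by
        apply sum_le_sum_of_subset_of_nonneg (subset_univ _)
        intro i _ _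
        split_ifs <;> norm_num

theorem ufun_sum_eq_iff {n : ℕ} (G : Finset (Fin n × Bool)) (B : Finset (Fin n)) :
    ∑ i ∈ B, ufun G i = ∑ i, (if (i, true) ∈ G then (1 : ℚ) else 0) ↔ G ⊆ sgn B := by
  have key : ∑ i, (if (i, true) ∈ G then (1 : ℚ) else 0) - ∑ i ∈ B, ufun G i =
      ∑ i, ((if (i, true) ∈ G ∧ i ∉ B then (1 : ℚ) else 0) +
        (if (i, false) ∈ G ∧ i ∈ B then (1 : ℚ) else 0)) := by
    have h1 : ∑ i ∈ B, ufun G i = ∑ i, (if i ∈ B then ufun G i else 0) := by
      rw [sum_ite_mem, univ_inter]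
    rw [h1, ← sum_sub_distrib]
    apply sum_congr rfl
    intro i _
    unfold ufun
    by_cases h1 : (i, true) ∈ G <;> by_cases h2 : (i, false) ∈ G <;> by_cases h3 : i ∈ B <;>
      simp [h1, h2, h3]
  have hnn : ∀ i ∈ (univ : Finset (Fin n)), (0 : ℚ) ≤
      ((if (i, true) ∈ G ∧ i ∉ B then (1 : ℚ) else 0) +
        (if (i, false) ∈ G ∧ i ∈ B then (1 : ℚ) else 0)) := by
    intro i _
    split_ifs <;> norm_num
  constructor
  · intro h
    rw [h, sub_self] at key
    have h1 := (sum_eq_zero_iff_of_nonneg hnn).1 key.symm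
    rintro ⟨i, b⟩ hi
    have h2 := h1 i (mem_univ _)
    cases b
    · rw [mem_sgn_false]
      intro hB
      rw [if_pos (⟨hi, hB⟩ : (i, false) ∈ G ∧ i ∈ B)] at h2
      split_ifs at h2 <;> norm_num at h2
    · rw [mem_sgn_true]
      by_contra hB
      rw [if_pos (⟨hi, hB⟩ : (i, true) ∈ G ∧ i ∉ B)] at h2
      split_ifs at h2 <;> norm_num at h2
  · intro h
    have h1 : ∑ i, ((if (i, true) ∈ G ∧ i ∉ B then (1 : ℚ) else 0) +
        (if (i, false) ∈ G ∧ i ∈ B then (1 : ℚ) else 0)) = 0 := by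
      apply sum_eq_zero
      intro i _
      rw [if_neg, if_neg, add_zero]
      · rintro ⟨h1, h2⟩; exact (mem_sgn_false.1 (h h1)) h2
      · rintro ⟨h1, h2⟩; exact h2 (mem_sgn_true.1 (h h1))
    rw [h1] at key
    linarith

/-- the face of a sign pattern -/
def Pat (k n : ℕ) (G : Finset (Fin n × Bool)) : Set (Fin n → ℚ) := Fc (hypersimplex k n) (ufun G)

theorem isFace_Pat (k n : ℕ) (G : Finset (Fin n × Bool)) : IsFace (hypersimplex k n) (Pat k n G) :=
  isFace_Fc _ _

theorem mem_Pat {k n : ℕ} {G : Finset (Fin n × Bool)}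
    (hG : ∃ A : Finset (Fin n), A.card = k ∧ G ⊆ sgn A) {A : Finset (Fin n)} (hA : A.card = k) :
    vert A ∈ Pat k n G ↔ G ⊆ sgn A := by
  unfold Pat
  rw [vert_mem_Fc hA]
  constructor
  · intro h
    obtain ⟨B, hB, hGB⟩ := hG
    have h1 := h B hB
    rw [(ufun_sum_eq_iff G B).2 hGB] at h1
    exact (ufun_sum_eq_iff G A).1 (le_antisymm (ufun_sum_le G A) h1)
  · intro h B hB
    rw [(ufun_sum_eq_iff G A).2 h]
    exact ufun_sum_le G B

open Classical in
/-- the sign pattern of a face -/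
noncomputable def pat {n : ℕ} (k : ℕ) (F : Set (Fin n → ℚ)) : Finset (Fin n × Bool) :=
  univ.filter (fun ρ => ∀ A : Finset (Fin n), A.card = k → vert A ∈ F → ρ ∈ sgn A)

theorem mem_pat {n k : ℕ} {F : Set (Fin n → ℚ)} {ρ : Fin n × Bool} :
    ρ ∈ pat k F ↔ ∀ A : Finset (Fin n), A.card = k → vert A ∈ F → ρ ∈ sgn A := by
  simp [pat]

/-- exchange argument -/
theorem face_iff {n k : ℕ} {F : Set (Fin n → ℚ)} (hF : IsFace (hypersimplex k n) F)
    (hne : F.Nonempty) {B : Finset (Fin n)} (hB : B.card = k) :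
    vert B ∈ F ↔ pat k F ⊆ sgn B := by
  classical
  constructor
  · intro h ρ hρ
    exact mem_pat.1 hρ B hB h
  · intro hsub
    obtain ⟨A, hA, hAF⟩ := hyp_nonempty hF hne
    obtain ⟨u, rfl⟩ := hF.exists_Fc hne
    have hAmax := (vert_mem_Fc hA).1 hAF
    -- exchange inequality for maximizers
    have hex : ∀ C : Finset (Fin n), C.card = k → vert C ∈ Fc (hypersimplex k n) u →
        ∀ i ∈ C, ∀ j, j ∉ C → u j ≤ u i := by
      intro C hC hCF i hi j hj
      have h1 := (vert_mem_Fc hC).1 hCF (insert j (C.erase i)) (by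
        rw [card_insert_of_notMem (fun h => hj (mem_of_mem_erase h)), card_erase_of_mem hi]
        have := card_pos.2 ⟨i, hi⟩
        omega)
      rw [sum_insert (fun h => hj (mem_of_mem_erase h))] at h1
      have h2 := add_sum_erase C u hi
      linarith
    -- values on the symmetric difference agree
    have hval : ∀ i ∈ A \ B, ∀ j ∈ B \ A, u i = u j := by
      intro i hi j hj
      rw [mem_sdiff] at hi hj
      have h1 : (i, true) ∉ pat k (Fc (hypersimplex k n) u) := fun h =>
        hi.2 (mem_sgn_true.1 (hsub h))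
      have h2 : (j, false) ∉ pat k (Fc (hypersimplex k n) u) := fun h =>
        (mem_sgn_false.1 (hsub h)) hj.1
      rw [mem_pat] at h1 h2
      push Not at h1 h2
      obtain ⟨C, hC, hCF, hiC⟩ := h1
      obtain ⟨D, hD, hDF, hjD⟩ := h2
      rw [mem_sgn_true] at hiC
      rw [mem_sgn_false, not_not] at hjD
      -- some j' ∈ C \ A, i' ∈ A \ D
      have hexC : ∃ j' ∈ C, j' ∉ A := by
        by_contra hcon
        push Not at hcon
        have : C = A := eq_of_subset_of_card_le hcon (by rw [hA, hC])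
        exact hiC (this ▸ hi.1)
      have hexD : ∃ i' ∈ A, i' ∉ D := by
        by_contra hcon
        push Not at hcon
        have : A = D := eq_of_subset_of_card_le hcon (by rw [hA, hD])
        exact hj.2 (this ▸ hjD)
      obtain ⟨j', hj'C, hj'A⟩ := hexC
      obtain ⟨i', hi'A, hi'D⟩ := hexD
      have e1 := hex A hA hAF i hi.1 j hj.2
      have e2 := hex C hC hCF j' hj'C i hiC
      have e3 := hex A hA hAF i' hi'A j' hj'A
      have e4 := hex D hD hDF j hjD i' hi'D
      linarith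
    have hcard : (A \ B).card = (B \ A).card := by
      have h1 := card_sdiff_add_card_inter A B
      have h2 := card_sdiff_add_card_inter B A
      rw [inter_comm] at h2
      omega
    have hsum : ∑ i ∈ B, u i = ∑ i ∈ A, u i := by
      have h1 : ∑ i ∈ A, u i = ∑ i ∈ A \ B, u i + ∑ i ∈ A ∩ B, u i := by
        rw [← sum_union (disjoint_sdiff_inter A B), sdiff_union_inter]
      have h2 : ∑ i ∈ B, u i = ∑ i ∈ B \ A, u i + ∑ i ∈ A ∩ B, u i := by
        rw [inter_comm, ← sum_union (disjoint_sdiff_inter B A), sdiff_union_inter]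
      rw [h1, h2]
      congr 1
      rcases (A \ B).eq_empty_or_nonempty with h0 | ⟨i, hi⟩
      · have h3 : B \ A = ∅ := by
          rw [h0, card_empty] at hcard
          exact card_eq_zero.1 hcard.symm
        rw [h0, h3]
      · have h4 : ∀ j ∈ B \ A, u j = u i := fun j hj => (hval i hi j hj).symm
        have hBne : (B \ A).Nonempty := by
          rw [← card_pos, ← hcard]
          exact card_pos.2 ⟨i, hi⟩
        obtain ⟨j, hj⟩ := hBne
        have h5 : ∀ i' ∈ A \ B, u i' = u i := fun i' hi' =>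
          (hval i' hi' j hj).trans (hval i hi j hj).symm
        rw [sum_congr rfl h4, sum_congr rfl h5, sum_const, sum_const, hcard]
    rw [vert_mem_Fc hB]
    intro C hC
    rw [hsum]
    exact hAmax C hC

end Pool.Agent.Helper76.CB
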