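import Pool.Agent.Helper76.CB.ModelM

set_option autoImplicit false

/-!
# The simplex models (`k = 1` or `k + 1 = n`)
-/

namespace Pool.Agent.Helper76.CB

open Finset Matrix Module Pool.Agent.Helper40.CB Pool.Agent.Helper93.CB

variable {d e : ℕ}

theorem boolModel_transport {n : ℕ} {P : Set (Fin d → ℚ)} {Q : Set (Fin e → ℚ)}
    (hP : IsPolytope P) (M : BoolModel n Q) (φ : FaceLattice P ≃o FaceLattice Q) :
    Nonempty (BoolModel n P) := by
  classical
  have hv : ∀ i : Fin n, ∃ x, (φ.symm ⟨{M.q i}, M.isV i⟩).1 = {x} := fun i =>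
    (iso_singleton M.hP hP φ.symm ⟨{M.q i}, M.isV i⟩).2 ⟨M.q i, rfl⟩
  choose p hp using hv
  have hmem : ∀ (F : Set (Fin d → ℚ)) (hF : IsFace P F) (i : Fin n),
      (p i ∈ F ↔ M.q i ∈ (φ ⟨F, hF⟩).1) := by
    intro F hF i
    rw [← Set.singleton_subset_iff, ← Set.singleton_subset_iff (a := M.q i), ← hp i]
    exact φ.symm_apply_le (x := ⟨F, hF⟩) (y := ⟨{M.q i}, M.isV i⟩)
  refine ⟨⟨hP, p, ?_, ?_, ?_, ?_⟩⟩
  · intro i
    rw [← hp i]
    exact (φ.symm _).2
  · intro x hx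
    obtain ⟨y, hy⟩ := (iso_singleton hP M.hP φ ⟨{x}, hx⟩).2 ⟨x, rfl⟩
    have hyF : IsFace Q {y} := by rw [← hy]; exact (φ ⟨{x}, hx⟩).2
    obtain ⟨i, rfl⟩ := M.allV y hyF
    refine ⟨i, ?_⟩
    have h1 : φ ⟨{x}, hx⟩ = ⟨{M.q i}, M.isV i⟩ := Subtype.ext hy
    have h2 : φ.symm ⟨{M.q i}, M.isV i⟩ = ⟨{x}, hx⟩ := by
      rw [← h1, φ.symm_apply_apply]
    have h3 := hp i
    rw [h2] at h3
    exact Set.singleton_injective h3
  · intro i j hij
    have h1 := hp i
    have h2 := hp j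
    rw [hij, ← h2] at h1
    have h3 := φ.symm.injective (Subtype.ext h1)
    exact M.inj (Set.singleton_injective (Subtype.ext_iff.1 h3))
  · intro G
    obtain ⟨F, hF, hFG⟩ := M.of_face G
    refine ⟨(φ.symm ⟨F, hF⟩).1, (φ.symm _).2, fun i => ?_⟩
    rw [hmem _ (φ.symm ⟨F, hF⟩).2 i]
    have : φ ⟨(φ.symm ⟨F, hF⟩).1, (φ.symm ⟨F, hF⟩).2⟩ = ⟨F, hF⟩ := φ.apply_symm_apply _
    rw [this]
    exact hFG i

theorem boolModel_transport_dual {n : ℕ} {P : Set (Fin d → ℚ)} {Q : Set (Fin e → ℚ)}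
    (hP : IsPolytope P) (M : BoolModel n Q) (φ : FaceLattice P ≃o (FaceLattice Q)ᵒᵈ)
    (hn : 2 ≤ n) : Nonempty (BoolModel n P) := by
  classical
  choose ff hff hffm using M.of_face
  -- facets
  have hsub : ∀ F, IsFace Q F → ∀ G, IsFace Q G → (∀ i, M.q i ∈ F → M.q i ∈ G) → F ⊆ G := by
    intro F hF G hG h
    apply face_subset M.hP hF hG
    intro x hx hv
    obtain ⟨i, rfl⟩ := M.allV x hv
    exact h i hx
  have hfac : ∀ F, IsFace Q F → ∀ i, (F ⊆ ff (univ.erase i) ↔ M.q i ∉ F) := by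
    intro F hF i
    constructor
    · intro h hi
      have := (hffm (univ.erase i) i).1 (h hi)
      exact (mem_erase.1 this).1 rfl
    · intro h
      apply hsub F hF _ (hff _)
      intro j hj
      rw [hffm, mem_erase]
      refine ⟨?_, mem_univ _⟩
      rintro rfl
      exact h hj
  have hne_full : ∀ i, ff (univ.erase i) ≠ Q := by
    intro i h
    have h1 : M.q i ∈ ff (univ.erase i) := h.ge ((M.isV i).subset rfl)
    have := (hffm (univ.erase i) i).1 h1
    exact (mem_erase.1 this).1 rfl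
  have hmiss : ∀ F, IsFace Q F → F ≠ Q → ∃ i, M.q i ∉ F := by
    intro F hF h
    by_contra hcon
    push Not at hcon
    exact h (Set.Subset.antisymm hF.subset (hsub Q (isFace_self Q) F hF fun i _ => hcon i))
  have hcoat : ∀ G : FaceLattice Q, IsCoat G ↔ ∃ i, G.1 = ff (univ.erase i) := by
    intro G
    constructor
    · rintro ⟨h1, h2⟩
      obtain ⟨i, hi⟩ := hmiss G.1 G.2 h1
      refine ⟨i, ?_⟩
      have := h2 ⟨ff (univ.erase i), hff _⟩ ((hfac G.1 G.2 i).2 hi) (hne_full i)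
      rw [← this]
    · rintro ⟨i, hi⟩
      refine ⟨by rw [hi]; exact hne_full i, fun G' hG' hne => ?_⟩
      obtain ⟨j, hj⟩ := hmiss G'.1 G'.2 hne
      have h1 : ff (univ.erase i) ⊆ G'.1 := by rw [← hi]; exact hG'
      have h2 : M.q j ∉ ff (univ.erase i) := fun h => hj (h1 h)
      rw [hffm, mem_erase] at h2
      have h3 : j = i := by
        by_contra hne'
        exact h2 ⟨hne', mem_univ _⟩
      subst h3
      apply Subtype.ext
      rw [hi]
      exact Set.Subset.antisymm ((hfac G'.1 G'.2 j).2 hj) h1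
  have hq : ∀ i, ∃ x, (up φ ⟨ff (univ.erase i), hff _⟩).1 = {x} := by
    intro i
    rw [← dn_coat_iff φ hP, dn_up, hcoat]
    exact ⟨i, rfl⟩
  choose q hq using hq
  have hmem : ∀ (F : Set (Fin d → ℚ)) (hF : IsFace P F) (i : Fin n),
      (q i ∈ F ↔ M.q i ∉ (dn φ ⟨F, hF⟩).1) := by
    intro F hF i
    rw [← Set.singleton_subset_iff, ← hq i, ← hfac _ (dn φ ⟨F, hF⟩).2 i]
    exact up_le_iff φ (G := ⟨ff (univ.erase i), hff _⟩) (F := ⟨F, hF⟩)
  refine ⟨⟨hP, q, ?_, ?_, ?_, ?_⟩⟩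
  · intro i
    rw [← hq i]
    exact (up φ _).2
  · intro x hx
    have h1 : IsCoat (dn φ ⟨{x}, hx⟩) := (dn_coat_iff φ hP _).2 ⟨x, rfl⟩
    obtain ⟨i, hi⟩ := (hcoat _).1 h1
    refine ⟨i, ?_⟩
    have h2 : dn φ ⟨{x}, hx⟩ = ⟨ff (univ.erase i), hff _⟩ := Subtype.ext hi
    have h3 := hq i
    rw [← h2, up_dn] at h3
    exact Set.singleton_injective h3
  · intro i j hij
    have h1 := hq i
    have h2 := hq j
    rw [hij, ← h2] at h1
    have h3 := congrArg (dn φ) (Subtype.ext h1 : up φ ⟨ff (univ.erase i), hff _⟩ =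
      up φ ⟨ff (univ.erase j), hff _⟩)
    rw [dn_up, dn_up] at h3
    have h4 : ff (univ.erase i) = ff (univ.erase j) := Subtype.ext_iff.1 h3
    have h5 := (hfac _ (hff (univ.erase i)) j).1 (by rw [h4])
    rw [hffm, mem_erase] at h5
    by_contra hne
    exact h5 ⟨fun h => hne h.symm, mem_univ _⟩
  · intro G
    refine ⟨(up φ ⟨ff Gᶜ, hff _⟩).1, (up φ _).2, fun i => ?_⟩
    rw [hmem _ (up φ ⟨ff Gᶜ, hff _⟩).2 i]
    have : dn φ ⟨(up φ ⟨ff Gᶜ, hff _⟩).1, (up φ ⟨ff Gᶜ, hff _⟩).2⟩ = ⟨ff Gᶜ, hff _⟩ := dn_up φ _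
    rw [this]
    simp only
    rw [hffm, mem_compl, not_not]

theorem boolModel_one {n : ℕ} (hn : 2 ≤ n) : Nonempty (BoolModel n (hypersimplex 1 n)) := by
  classical
  refine ⟨⟨isPolytope_hyp 1 n, fun i => vert {i}, fun i => isFace_vert (card_singleton i), ?_, ?_, ?_⟩⟩
  · intro x hx
    obtain ⟨A, hA, rfl⟩ := vertex_eq hx
    obtain ⟨i, rfl⟩ := card_eq_one.1 hA
    exact ⟨i, rfl⟩
  · intro i j h
    exact singleton_injective (vert_inj h)
  · intro G
    rcases G.eq_empty_or_nonempty with rfl | ⟨j, hj⟩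
    · exact ⟨∅, isFace_empty _, fun i => by simp⟩
    · refine ⟨Fc (hypersimplex 1 n) (fun i => if i ∈ G then 1 else 0), isFace_Fc _ _, fun i => ?_⟩
      rw [vert_mem_Fc (card_singleton i)]
      constructor
      · intro h
        have := h {j} (card_singleton j)
        rw [sum_singleton, sum_singleton, if_pos hj] at this
        by_contra hi
        rw [if_neg hi] at this
        norm_num at this
      · intro hi B hB
        obtain ⟨l, rfl⟩ := card_eq_one.1 hB
        rw [sum_singleton, sum_singleton, if_pos hi]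
        split_ifs <;> norm_num

theorem boolModel_coone {n k : ℕ} (hn : 2 ≤ n) (hk : k + 1 = n) :
    Nonempty (BoolModel n (hypersimplex k n)) := by
  classical
  have hcard : ∀ i : Fin n, (({i} : Finset (Fin n))ᶜ).card = k := by
    intro i
    rw [card_compl, Fintype.card_fin, card_singleton]
    omega
  refine ⟨⟨isPolytope_hyp k n, fun i => vert {i}ᶜ, fun i => isFace_vert (hcard i), ?_, ?_, ?_⟩⟩
  · intro x hx
    obtain ⟨A, hA, rfl⟩ := vertex_eq hx
    have : Aᶜ.card = 1 := by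
      rw [card_compl, Fintype.card_fin]
      omega
    obtain ⟨i, hi⟩ := card_eq_one.1 this
    refine ⟨i, ?_⟩
    rw [← hi, compl_compl]
  · intro i j h
    exact singleton_injective (compl_injective (vert_inj h))
  · intro G
    rcases G.eq_empty_or_nonempty with rfl | ⟨j, hj⟩
    · exact ⟨∅, isFace_empty _, fun i => by simp⟩
    · refine ⟨Fc (hypersimplex k n) (fun i => if i ∈ G then -1 else 0), isFace_Fc _ _, fun i => ?_⟩
      rw [vert_mem_Fc (hcard i)]
      have hs : ∀ i : Fin n, ∑ l ∈ ({i} : Finset (Fin n))ᶜ, (if l ∈ G then (-1 : ℚ) else 0) =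
          ∑ l, (if l ∈ G then (-1 : ℚ) else 0) - (if i ∈ G then (-1 : ℚ) else 0) := by
        intro i
        have := sum_add_sum_compl ({i} : Finset (Fin n)) (fun l => if l ∈ G then (-1 : ℚ) else 0)
        rw [sum_singleton] at this
        linarith
      constructor
      · intro h
        have := h {j}ᶜ (hcard j)
        rw [hs, hs, if_pos hj] at this
        by_contra hi
        rw [if_neg hi] at this
        linarith
      · intro hi B hB
        have h1 : Bᶜ.card = 1 := by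
          rw [card_compl, Fintype.card_fin]
          omega
        obtain ⟨l, hl⟩ := card_eq_one.1 h1
        have h2 : B = {l}ᶜ := by rw [← hl, compl_compl]
        rw [h2, hs, hs, if_pos hi]
        split_ifs <;> linarith

theorem boolModel_self {n k : ℕ} (hn : 2 ≤ n) (hk : k = 1 ∨ k + 1 = n) :
    Nonempty (BoolModel n (hypersimplex k n)) := by
  rcases hk with rfl | hk
  · exact boolModel_one hn
  · exact boolModel_coone hn hk

theorem boolModel_hyp {n k : ℕ} (hn : 2 ≤ n) (hk : k = 1 ∨ k + 1 = n)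
    {P : Set (Fin (n - 1) → ℚ)} (h : RealizesHyp k n P) : Nonempty (BoolModel n P) := by
  obtain ⟨hP, -, ⟨φ⟩⟩ := h
  obtain ⟨M⟩ := boolModel_self hn hk
  exact boolModel_transport hP M φ

theorem boolModel_dual {n k : ℕ} (hn : 2 ≤ n) (hk : k = 1 ∨ k + 1 = n)
    {P : Set (Fin (n - 1) → ℚ)} (h : RealizesDualHyp k n P) : Nonempty (BoolModel n P) := by
  obtain ⟨hP, -, ⟨φ⟩⟩ := h
  obtain ⟨M⟩ := boolModel_self hn hk
  exact boolModel_transport_dual hP M φ hn

end Pool.Agent.Helper76.CB
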