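import Pool.Agent.Helper76.CB.Faces

set_option autoImplicit false

/-!
# Models of the combinatorial types from the order isomorphisms of the face lattices
-/

namespace Pool.Agent.Helper76.CB

open Finset Matrix Module Pool.Agent.Helper40.CB Pool.Agent.Helper93.CB

variable {d e : ℕ}

theorem isFace_empty (P : Set (Fin d → ℚ)) : IsFace P ∅ := Or.inl rfl

theorem empty_iff {P : Set (Fin d → ℚ)} (F : FaceLattice P) :
    F.1 = ∅ ↔ ∀ G : FaceLattice P, F ≤ G := by
  constructor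
  · intro h G
    show F.1 ⊆ G.1
    rw [h]; exact Set.empty_subset _
  · intro h
    exact Set.subset_empty_iff.1 (h ⟨∅, isFace_empty P⟩)

theorem full_iff {P : Set (Fin d → ℚ)} (F : FaceLattice P) :
    F.1 = P ↔ ∀ G : FaceLattice P, G ≤ F := by
  constructor
  · intro h G
    show G.1 ⊆ F.1
    rw [h]; exact G.2.subset
  · intro h
    exact Set.Subset.antisymm F.2.subset (h ⟨P, isFace_self P⟩)

theorem singleton_iff {P : Set (Fin d → ℚ)} (hP : IsPolytope P) (F : FaceLattice P) :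
    (∃ x, F.1 = {x}) ↔ F.1 ≠ ∅ ∧ ∀ G : FaceLattice P, G ≤ F → G.1 ≠ ∅ → G = F := by
  constructor
  · rintro ⟨x, hx⟩
    refine ⟨by rw [hx]; exact Set.singleton_ne_empty x, fun G hG hne => ?_⟩
    apply Subtype.ext
    have h1 : G.1 ⊆ F.1 := hG
    rw [hx] at h1 ⊢
    exact (Set.subset_singleton_iff_eq.1 h1).resolve_left hne
  · rintro ⟨hne, h⟩
    obtain ⟨p, hp, hv, -⟩ := exists_vertex hP F.2 (Set.nonempty_iff_ne_empty.2 hne) 0
    refine ⟨p, ?_⟩
    have := h ⟨{p}, hv⟩ (Set.singleton_subset_iff.2 hp) (Set.singleton_ne_empty p)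
    rw [← this]

theorem iso_empty {P : Set (Fin d → ℚ)} {Q : Set (Fin e → ℚ)} (φ : FaceLattice P ≃o FaceLattice Q)
    (F : FaceLattice P) : (φ F).1 = ∅ ↔ F.1 = ∅ := by
  rw [empty_iff, empty_iff]
  constructor
  · intro h G
    exact φ.le_iff_le.1 (h (φ G))
  · intro h G
    rw [← φ.apply_symm_apply G]
    exact φ.le_iff_le.2 (h _)

theorem iso_singleton {P : Set (Fin d → ℚ)} {Q : Set (Fin e → ℚ)} (hP : IsPolytope P)
    (hQ : IsPolytope Q) (φ : FaceLattice P ≃o FaceLattice Q)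
    (F : FaceLattice P) : (∃ x, (φ F).1 = {x}) ↔ ∃ x, F.1 = {x} := by
  rw [singleton_iff hP, singleton_iff hQ, Ne, iso_empty]
  constructor
  · rintro ⟨h1, h2⟩
    refine ⟨h1, fun G hG hne => ?_⟩
    have := h2 (φ G) (φ.le_iff_le.2 hG) (by rw [Ne, iso_empty]; exact hne)
    exact φ.injective this
  · rintro ⟨h1, h2⟩
    refine ⟨h1, fun G hG hne => ?_⟩
    have h3 := h2 (φ.symm G) (by rw [φ.symm_apply_le]; exact hG)
      (by rw [Ne, iso_empty φ.symm]; exact hne)
    rw [← h3, φ.apply_symm_apply]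

/-- coatoms of the face lattice -/
def IsCoat {Q : Set (Fin e → ℚ)} (G : FaceLattice Q) : Prop :=
  G.1 ≠ Q ∧ ∀ G' : FaceLattice Q, G ≤ G' → G'.1 ≠ Q → G' = G

/-- the face of `Q` which corresponds to a face of the dual polytope `P` -/
def dn {P : Set (Fin d → ℚ)} {Q : Set (Fin e → ℚ)} (φ : FaceLattice P ≃o (FaceLattice Q)ᵒᵈ)
    (F : FaceLattice P) : FaceLattice Q := OrderDual.ofDual (φ F)

/-- the inverse of `dn` -/
def up {P : Set (Fin d → ℚ)} {Q : Set (Fin e → ℚ)} (φ : FaceLattice P ≃o (FaceLattice Q)ᵒᵈ)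
    (G : FaceLattice Q) : FaceLattice P := φ.symm (OrderDual.toDual G)

section dual

variable {P : Set (Fin d → ℚ)} {Q : Set (Fin e → ℚ)} (φ : FaceLattice P ≃o (FaceLattice Q)ᵒᵈ)

theorem dn_up (G : FaceLattice Q) : dn φ (up φ G) = G := by
  unfold dn up
  rw [φ.apply_symm_apply]; rfl

theorem up_dn (F : FaceLattice P) : up φ (dn φ F) = F := by
  unfold dn up
  exact φ.symm_apply_apply F

theorem dn_le_dn {F F' : FaceLattice P} : dn φ F ≤ dn φ F' ↔ F' ≤ F := by
  unfold dn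
  exact φ.le_iff_le

theorem up_le_iff {G : FaceLattice Q} {F : FaceLattice P} : up φ G ≤ F ↔ dn φ F ≤ G := by
  rw [← dn_le_dn φ, dn_up]

theorem dn_full_iff (F : FaceLattice P) : (dn φ F).1 = Q ↔ F.1 = ∅ := by
  rw [full_iff, empty_iff]
  constructor
  · intro h G
    exact (dn_le_dn φ).1 (h (dn φ G))
  · intro h G
    rw [← dn_up φ G]
    exact (dn_le_dn φ).2 (h _)

theorem dn_empty_iff (F : FaceLattice P) : (dn φ F).1 = ∅ ↔ F.1 = P := by
  rw [full_iff, empty_iff]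
  constructor
  · intro h G
    exact (dn_le_dn φ).1 (h (dn φ G))
  · intro h G
    rw [← dn_up φ G]
    exact (dn_le_dn φ).2 (h _)

theorem dn_coat_iff (hP : IsPolytope P) (F : FaceLattice P) :
    IsCoat (dn φ F) ↔ ∃ x, F.1 = {x} := by
  rw [singleton_iff hP, IsCoat, Ne, dn_full_iff]
  constructor
  · rintro ⟨h1, h2⟩
    refine ⟨h1, fun G hG hne => ?_⟩
    have := h2 (dn φ G) ((dn_le_dn φ).2 hG) (by rw [Ne, dn_full_iff]; exact hne)
    rw [← up_dn φ G, this, up_dn]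
  · rintro ⟨h1, h2⟩
    refine ⟨h1, fun G hG hne => ?_⟩
    have h3 := h2 (up φ G) ((up_le_iff φ).2 hG)
      (by rw [Ne, ← dn_full_iff φ, dn_up]; exact hne)
    rw [← h3, dn_up]

end dual

/-! ## sign patterns -/

theorem valid_singleton {n k : ℕ} (hk : 2 ≤ k) (hkn : k + 2 ≤ n) (ρ : Fin n × Bool) :
    Valid n k {ρ} := by
  refine ⟨?_, ?_, ?_⟩
  · rintro i ⟨h1, h2⟩
    rw [mem_singleton] at h1 h2
    rw [← h1] at h2
    simp at h2
  · have := card_filter_le ({ρ} : Finset (Fin n × Bool)) (fun ρ => ρ.2 = true)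
    rw [card_singleton] at this
    omega
  · have := card_filter_le ({ρ} : Finset (Fin n × Bool)) (fun ρ => ρ.2 = false)
    rw [card_singleton] at this
    omega

theorem card_side {n : ℕ} (G : Finset (Fin n × Bool)) (b : Bool) :
    (univ.filter (fun i : Fin n => (i, b) ∈ G)).card = (G.filter (fun ρ => ρ.2 = b)).card := by
  apply card_bij (fun i _ => (i, b))
  · intro i hi
    simp only [mem_filter, mem_univ, true_and] at hi ⊢
    exact ⟨hi, trivial⟩
  · intro i _ j _ h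
    exact (Prod.ext_iff.1 h).1
  · rintro ⟨i, b'⟩ h
    simp only [mem_filter] at h
    refine ⟨i, ?_, ?_⟩
    · simp only [mem_filter, mem_univ, true_and]
      rw [← h.2]; exact h.1
    · rw [← h.2]

theorem exists_sgn {n k : ℕ} {G : Finset (Fin n × Bool)} (hG : Valid n k G) {ρ : Fin n × Bool}
    (hρ : ρ ∉ G) : ∃ A : Finset (Fin n), A.card = k ∧ G ⊆ sgn A ∧ ρ ∉ sgn A := by
  classical
  obtain ⟨h1, h2, h3⟩ := hG
  set I1 := univ.filter (fun i : Fin n => (i, true) ∈ G) with hI1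
  set I0 := univ.filter (fun i : Fin n => (i, false) ∈ G) with hI0
  have c1 : I1.card + 1 ≤ k := by rw [hI1, card_side]; exact h2
  have c0 : I0.card + k + 1 ≤ n := by rw [hI0, card_side]; exact h3
  have m1 : ∀ i, i ∈ I1 ↔ (i, true) ∈ G := fun i => by simp [hI1]
  have m0 : ∀ i, i ∈ I0 ↔ (i, false) ∈ G := fun i => by simp [hI0]
  have hsub : ∀ A : Finset (Fin n), I1 ⊆ A → A ⊆ I0ᶜ → G ⊆ sgn A := by
    rintro A hA1 hA0 ⟨i, b⟩ hi
    cases b
    · rw [mem_sgn_false]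
      intro hA
      have := hA0 hA
      rw [mem_compl] at this
      exact this ((m0 i).2 hi)
    · rw [mem_sgn_true]
      exact hA1 ((m1 i).2 hi)
  obtain ⟨i, b⟩ := ρ
  cases b
  · -- want `i ∈ A`
    obtain ⟨A, hA1, hA2, hA3⟩ := exists_subsuperset_card_eq (s := insert i I1) (t := I0ᶜ) (n := k)
      (by
        intro j hj
        rw [mem_insert] at hj
        rw [mem_compl, m0]
        rcases hj with rfl | hj
        · exact hρ
        · exact fun h => h1 j ⟨(m1 j).1 hj, h⟩)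
      (by have := card_insert_le i I1; omega)
      (by rw [card_compl, Fintype.card_fin]; omega)
    refine ⟨A, hA3, hsub A ((subset_insert i I1).trans hA1) hA2, ?_⟩
    rw [mem_sgn_false, not_not]
    exact hA1 (mem_insert_self i I1)
  · obtain ⟨A, hA1, hA2, hA3⟩ := exists_subsuperset_card_eq (s := I1) (t := (insert i I0)ᶜ) (n := k)
      (by
        intro j hj
        rw [mem_compl, mem_insert, not_or, m0]
        refine ⟨?_, fun h => h1 j ⟨(m1 j).1 hj, h⟩⟩
        rintro rfl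
        exact hρ ((m1 j).1 hj))
      (by omega)
      (by rw [card_compl, Fintype.card_fin]; have := card_insert_le i I0; omega)
    refine ⟨A, hA3, hsub A hA1 (hA2.trans ?_), ?_⟩
    · intro j hj
      rw [mem_compl] at hj ⊢
      exact fun h => hj (mem_insert_of_mem h)
    · rw [mem_sgn_true]
      intro h
      have := hA2 h
      rw [mem_compl] at this
      exact this (mem_insert_self i I0)

theorem exists_sgn' {n k : ℕ} {G : Finset (Fin n × Bool)} (hG : Valid n k G) :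
    ∃ A : Finset (Fin n), A.card = k ∧ G ⊆ sgn A := by
  classical
  by_cases h : G = univ
  · -- impossible unless `n = 0`, but then `k + 1 ≤ 0`
    exfalso
    obtain ⟨h1, -, h3⟩ := hG
    have hn : 0 < n := by omega
    exact h1 ⟨0, hn⟩ ⟨h ▸ mem_univ _, h ▸ mem_univ _⟩
  · have : ∃ ρ, ρ ∉ G := by
      by_contra hcon
      push Not at hcon
      exact h (eq_univ_iff_forall.2 hcon)
    obtain ⟨ρ, hρ⟩ := this
    obtain ⟨A, hA, hGA, -⟩ := exists_sgn hG hρ
    exact ⟨A, hA, hGA⟩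

theorem pat_Pat {n k : ℕ} {G : Finset (Fin n × Bool)} (hG : Valid n k G) :
    pat k (Pat k n G) = G := by
  ext ρ
  rw [mem_pat]
  constructor
  · intro h
    by_contra hρ
    obtain ⟨A, hA, hGA, hρA⟩ := exists_sgn hG hρ
    exact hρA (h A hA ((mem_Pat ⟨A, hA, hGA⟩ hA).2 hGA))
  · intro h A hA hAF
    exact (mem_Pat (exists_sgn' hG) hA).1 hAF h

theorem pat_vert {n k : ℕ} {A : Finset (Fin n)} (hA : A.card = k) :
    pat k ({vert A} : Set (Fin n → ℚ)) = sgn A := by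
  ext ρ
  rw [mem_pat]
  constructor
  · intro h
    exact h A hA rfl
  · intro h B _ hBF
    have : B = A := vert_inj hBF
    rw [this]; exact h

/-- a face of the hypersimplex lies in the facet `ρ` iff `ρ` is in its pattern -/
theorem subset_Pat_iff {n k : ℕ} {F : Set (Fin n → ℚ)} (hF : IsFace (hypersimplex k n) F)
    {ρ : Fin n × Bool} (hρ : Valid n k {ρ}) : F ⊆ Pat k n {ρ} ↔ ρ ∈ pat k F := by
  rw [mem_pat]
  constructor
  · intro h A hA hAF
    exact singleton_subset_iff.1 ((mem_Pat (exists_sgn' hρ) hA).1 (h hAF))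
  · intro h
    apply hyp_subset hF (isFace_Pat k n {ρ})
    intro A hA hAF
    exact (mem_Pat (exists_sgn' hρ) hA).2 (singleton_subset_iff.2 (h A hA hAF))

theorem exists_ne_set {n k : ℕ} (hk : 1 ≤ k) (hkn : k + 1 ≤ n) {A : Finset (Fin n)}
    (hA : A.card = k) : ∃ B : Finset (Fin n), B.card = k ∧ B ≠ A := by
  classical
  obtain ⟨i, hi⟩ := card_pos.1 (show 0 < A.card by omega)
  have : ∃ j, j ∉ A := by
    by_contra hcon
    push Not at hcon
    have : A = univ := eq_univ_iff_forall.2 hcon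
    rw [this, card_univ, Fintype.card_fin] at hA
    omega
  obtain ⟨j, hj⟩ := this
  refine ⟨insert j (A.erase i), ?_, ?_⟩
  · rw [card_insert_of_notMem (fun h => hj (mem_of_mem_erase h)), card_erase_of_mem hi]
    omega
  · intro h
    exact hj (h ▸ mem_insert_self _ _)

theorem coat_iff {n k : ℕ} (hk : 2 ≤ k) (hkn : k + 2 ≤ n)
    (G : FaceLattice (hypersimplex k n)) : IsCoat G ↔ ∃ ρ, G.1 = Pat k n {ρ} := by
  have hv : ∀ ρ, Valid n k {ρ} := valid_singleton hk hkn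
  -- proper faces lie in facets
  have key : ∀ F : FaceLattice (hypersimplex k n), F.1.Nonempty → F.1 ≠ hypersimplex k n →
      ∃ ρ, F.1 ⊆ Pat k n {ρ} := by
    intro F hne hF
    have h1 : (pat k F.1).Nonempty := by
      by_contra hcon
      rw [not_nonempty_iff_eq_empty] at hcon
      apply hF
      apply Set.Subset.antisymm F.2.subset
      apply hyp_subset (isFace_self _) F.2
      intro A hA _
      rw [face_iff F.2 hne hA, hcon]
      exact empty_subset _
    obtain ⟨ρ, hρ⟩ := h1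
    exact ⟨ρ, (subset_Pat_iff F.2 (hv ρ)).2 hρ⟩
  have hPat_ne : ∀ ρ, Pat k n {ρ} ≠ hypersimplex k n := by
    intro ρ h
    obtain ⟨A, hA, -, h1⟩ := exists_sgn (G := ∅) (ρ := ρ) (n := n) (k := k)
      ((hv ρ).mono (empty_subset _)) (notMem_empty _)
    have h2 : vert A ∈ Pat k n {ρ} := by rw [h]; exact vert_mem hA
    exact h1 (singleton_subset_iff.1 ((mem_Pat (exists_sgn' (hv ρ)) hA).1 h2))
  have hPat_inj : ∀ ρ ρ', Pat k n {ρ} ⊆ Pat k n {ρ'} → ρ = ρ' := by
    intro ρ ρ' h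
    rw [subset_Pat_iff (isFace_Pat k n {ρ}) (hv ρ'), pat_Pat (hv ρ), mem_singleton] at h
    exact h.symm
  have hPat_nonempty : ∀ ρ, (Pat k n {ρ}).Nonempty := by
    intro ρ
    obtain ⟨A, hA, h1⟩ := exists_sgn' (hv ρ)
    exact ⟨vert A, (mem_Pat ⟨A, hA, h1⟩ hA).2 h1⟩
  constructor
  · rintro ⟨h1, h2⟩
    have hne : G.1.Nonempty := by
      rw [Set.nonempty_iff_ne_empty]
      intro h0
      obtain ⟨A, hA, -⟩ := exists_sgn' (hv (⟨0, by omega⟩, true))
      obtain ⟨B, hB, hBA⟩ := exists_ne_set (by omega) (by omega) hA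
      have h3 := h2 ⟨{vert A}, isFace_vert hA⟩ (by
        show G.1 ⊆ {vert A}
        rw [h0]; exact Set.empty_subset _) (by
        show ({vert A} : Set (Fin n → ℚ)) ≠ hypersimplex k n
        intro h4
        have : vert B ∈ ({vert A} : Set (Fin n → ℚ)) := by rw [h4]; exact vert_mem hB
        exact hBA (vert_inj this))
      rw [← h3] at h0
      exact Set.singleton_ne_empty _ h0
    obtain ⟨ρ, hρ⟩ := key G hne h1
    refine ⟨ρ, ?_⟩
    have := h2 ⟨Pat k n {ρ}, isFace_Pat k n {ρ}⟩ hρ (hPat_ne ρ)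
    rw [← this]
  · rintro ⟨ρ, hρ⟩
    refine ⟨by rw [hρ]; exact hPat_ne ρ, fun G' hG' hne => ?_⟩
    have h1 : Pat k n {ρ} ⊆ G'.1 := by rw [← hρ]; exact hG'
    obtain ⟨ρ', hρ'⟩ := key G' ((hPat_nonempty ρ).mono h1) hne
    have h2 := hPat_inj ρ ρ' (h1.trans hρ')
    subst h2
    apply Subtype.ext
    rw [hρ]
    exact Set.Subset.antisymm hρ' h1

/-! ## the models -/

theorem hypModel {n k : ℕ} (hk : 1 ≤ k) (hkn : k + 1 ≤ n) {P : Set (Fin (n - 1) → ℚ)}
    (h : RealizesHyp k n P) : Nonempty (HypModel n k P) := by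
  classical
  obtain ⟨hP, -, ⟨φ⟩⟩ := h
  have hQ := isPolytope_hyp k n
  have hv : ∀ A : Finset (Fin n), ∃ x, ∀ hA : A.card = k,
      (φ.symm ⟨{vert A}, isFace_vert hA⟩).1 = {x} := by
    intro A
    by_cases hA : A.card = k
    · obtain ⟨x, hx⟩ := (iso_singleton hQ hP φ.symm ⟨{vert A}, isFace_vert hA⟩).2 ⟨vert A, rfl⟩
      exact ⟨x, fun _ => hx⟩
    · exact ⟨0, fun h => absurd h hA⟩
  choose p hp using hv
  have hmem : ∀ (F : Set (Fin (n - 1) → ℚ)) (hF : IsFace P F) (A : Finset (Fin n)),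
      A.card = k → (p A ∈ F ↔ vert A ∈ (φ ⟨F, hF⟩).1) := by
    intro F hF A hA
    rw [← Set.singleton_subset_iff, ← Set.singleton_subset_iff (a := vert A), ← hp A hA]
    exact φ.symm_apply_le (x := ⟨F, hF⟩) (y := ⟨{vert A}, isFace_vert hA⟩)
  refine ⟨⟨hP, p, ?_, ?_, ?_, ?_, ?_⟩⟩
  · intro A hA
    rw [← hp A hA]
    exact (φ.symm ⟨{vert A}, isFace_vert hA⟩).2
  · intro x hx
    obtain ⟨y, hy⟩ := (iso_singleton hP hQ φ ⟨{x}, hx⟩).2 ⟨x, rfl⟩
    have hyF : IsFace (hypersimplex k n) {y} := by rw [← hy]; exact (φ ⟨{x}, hx⟩).2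
    obtain ⟨A, hA, rfl⟩ := vertex_eq hyF
    refine ⟨A, hA, ?_⟩
    have h1 : φ ⟨{x}, hx⟩ = ⟨{vert A}, isFace_vert hA⟩ := Subtype.ext hy
    have h2 : φ.symm ⟨{vert A}, isFace_vert hA⟩ = ⟨{x}, hx⟩ := by
      rw [← h1, φ.symm_apply_apply]
    have h3 := hp A hA
    rw [h2] at h3
    exact Set.singleton_injective h3
  · intro A B hA hB hAB
    have h1 := hp A hA
    have h2 := hp B hB
    rw [hAB, ← h2] at h1
    have h3 := φ.symm.injective (Subtype.ext h1)
    exact vert_inj (Set.singleton_injective (Subtype.ext_iff.1 h3))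
  · intro F hF hne
    have hne' : (φ ⟨F, hF⟩).1.Nonempty := by
      rw [Set.nonempty_iff_ne_empty, Ne, iso_empty, ← Ne, ← Set.nonempty_iff_ne_empty]
      exact hne
    refine ⟨pat k (φ ⟨F, hF⟩).1, ?_, ?_⟩
    · obtain ⟨A, hA, hAF⟩ := hyp_nonempty (φ ⟨F, hF⟩).2 hne'
      exact ⟨A, hA, (face_iff (φ ⟨F, hF⟩).2 hne' hA).1 hAF⟩
    · intro A hA
      rw [hmem F hF A hA]
      exact face_iff (φ ⟨F, hF⟩).2 hne' hA
  · intro G hG
    refine ⟨(φ.symm ⟨Pat k n G, isFace_Pat k n G⟩).1, (φ.symm _).2, fun A hA => ?_⟩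
    rw [hmem _ (φ.symm ⟨Pat k n G, isFace_Pat k n G⟩).2 A hA]
    have : φ ⟨(φ.symm ⟨Pat k n G, isFace_Pat k n G⟩).1,
        (φ.symm ⟨Pat k n G, isFace_Pat k n G⟩).2⟩ = ⟨Pat k n G, isFace_Pat k n G⟩ :=
      φ.apply_symm_apply _
    rw [this]
    exact mem_Pat hG hA

theorem dualModel {n k : ℕ} (hk : 2 ≤ k) (hkn : k + 2 ≤ n) {P : Set (Fin (n - 1) → ℚ)}
    (h : RealizesDualHyp k n P) : Nonempty (DualModel n k P) := by
  classical
  obtain ⟨hP, -, ⟨φ⟩⟩ := h
  have hv : ∀ ρ, Valid n k {ρ} := valid_singleton hk hkn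
  have hq : ∀ ρ, ∃ x, (up φ ⟨Pat k n {ρ}, isFace_Pat k n {ρ}⟩).1 = {x} := by
    intro ρ
    rw [← dn_coat_iff φ hP, dn_up, coat_iff hk hkn]
    exact ⟨ρ, rfl⟩
  choose q hq using hq
  have hmem : ∀ (F : Set (Fin (n - 1) → ℚ)) (hF : IsFace P F) (ρ : Fin n × Bool),
      (q ρ ∈ F ↔ ρ ∈ pat k (dn φ ⟨F, hF⟩).1) := by
    intro F hF ρ
    rw [← Set.singleton_subset_iff, ← hq ρ, ← subset_Pat_iff (dn φ ⟨F, hF⟩).2 (hv ρ)]
    exact up_le_iff φ (G := ⟨Pat k n {ρ}, isFace_Pat k n {ρ}⟩) (F := ⟨F, hF⟩)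
  refine ⟨⟨hP, q, ?_, ?_, ?_, ?_, ?_⟩⟩
  · intro ρ
    rw [← hq ρ]
    exact (up φ _).2
  · intro x hx
    have h1 : IsCoat (dn φ ⟨{x}, hx⟩) := (dn_coat_iff φ hP _).2 ⟨x, rfl⟩
    obtain ⟨ρ, hρ⟩ := (coat_iff hk hkn _).1 h1
    refine ⟨ρ, ?_⟩
    have h2 : dn φ ⟨{x}, hx⟩ = ⟨Pat k n {ρ}, isFace_Pat k n {ρ}⟩ := Subtype.ext hρ
    have h3 := hq ρ
    rw [← h2, up_dn] at h3
    exact Set.singleton_injective h3
  · intro ρ ρ' hρ
    have h1 := hq ρ
    have h2 := hq ρ'
    rw [hρ, ← h2] at h1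
    have h3 := congrArg (dn φ) (Subtype.ext h1 : up φ ⟨Pat k n {ρ}, isFace_Pat k n {ρ}⟩ =
      up φ ⟨Pat k n {ρ'}, isFace_Pat k n {ρ'}⟩)
    rw [dn_up, dn_up] at h3
    have h4 := congrArg (pat k) (Subtype.ext_iff.1 h3)
    simp only at h4
    rw [pat_Pat (hv ρ), pat_Pat (hv ρ')] at h4
    exact singleton_injective h4
  · intro F hF hne hFP
    refine ⟨pat k (dn φ ⟨F, hF⟩).1, ?_, hmem F hF⟩
    set F' := dn φ ⟨F, hF⟩ with hF'
    have hne' : F'.1.Nonempty := by
      rw [Set.nonempty_iff_ne_empty, Ne, hF', dn_empty_iff]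
      exact hFP
    obtain ⟨A, hA, hAF⟩ := hyp_nonempty F'.2 hne'
    have hsA := (face_iff F'.2 hne' hA).1 hAF
    by_cases hB : ∃ B : Finset (Fin n), B.card = k ∧ vert B ∈ F'.1 ∧ B ≠ A
    · left
      obtain ⟨B, hB, hBF, hBA⟩ := hB
      have hsB := (face_iff F'.2 hne' hB).1 hBF
      have hAB : (A ∩ B).card < k := by
        have h1 : A ∩ B ⊆ A := inter_subset_left
        rw [← hA]
        apply card_lt_card
        refine ⟨h1, fun h2 => hBA ?_⟩
        have h3 : A ⊆ B := fun x hx => (mem_inter.1 (h2 hx)).2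
        exact (eq_of_subset_of_card_le h3 (by rw [hA, hB])).symm
      refine ⟨?_, ?_, ?_⟩
      · rintro i ⟨h1, h2⟩
        exact (mem_sgn_false.1 (hsA h2)) (mem_sgn_true.1 (hsA h1))
      · rw [← card_side]
        have : (univ.filter (fun i : Fin n => (i, true) ∈ pat k F'.1)) ⊆ A ∩ B := by
          intro i hi
          rw [mem_filter] at hi
          exact mem_inter.2 ⟨mem_sgn_true.1 (hsA hi.2), mem_sgn_true.1 (hsB hi.2)⟩
        have := card_le_card this
        omega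
      · rw [← card_side]
        have : (univ.filter (fun i : Fin n => (i, false) ∈ pat k F'.1)) ⊆ (A ∪ B)ᶜ := by
          intro i hi
          rw [mem_filter] at hi
          rw [mem_compl, mem_union, not_or]
          exact ⟨mem_sgn_false.1 (hsA hi.2), mem_sgn_false.1 (hsB hi.2)⟩
        have h1 := card_le_card this
        rw [card_compl, Fintype.card_fin] at h1
        have h2 := card_union_add_card_inter A B
        omega
    · right
      refine ⟨A, hA, ?_⟩
      push Not at hB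
      have : F'.1 = {vert A} := by
        apply Set.Subset.antisymm
        · apply hyp_subset F'.2 (isFace_vert hA)
          intro B hB' hBF
          rw [hB B hB' hBF]; rfl
        · exact Set.singleton_subset_iff.2 hAF
      rw [this, pat_vert hA]
  · intro G hG
    rcases hG with hG | ⟨A, hA, rfl⟩
    · refine ⟨(up φ ⟨Pat k n G, isFace_Pat k n G⟩).1, (up φ _).2, fun ρ => ?_⟩
      rw [hmem _ (up φ ⟨Pat k n G, isFace_Pat k n G⟩).2 ρ]
      have : dn φ ⟨(up φ ⟨Pat k n G, isFace_Pat k n G⟩).1,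
          (up φ ⟨Pat k n G, isFace_Pat k n G⟩).2⟩ = ⟨Pat k n G, isFace_Pat k n G⟩ := dn_up φ _
      rw [this]
      simp only
      rw [pat_Pat hG]
    · refine ⟨(up φ ⟨{vert A}, isFace_vert hA⟩).1, (up φ _).2, fun ρ => ?_⟩
      rw [hmem _ (up φ ⟨{vert A}, isFace_vert hA⟩).2 ρ]
      have : dn φ ⟨(up φ ⟨{vert A}, isFace_vert hA⟩).1,
          (up φ ⟨{vert A}, isFace_vert hA⟩).2⟩ = ⟨{vert A}, isFace_vert hA⟩ := dn_up φ _
      rw [this]
      simp only
      rw [pat_vert hA]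

end Pool.Agent.Helper76.CB
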